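import Mathlib

/-!
If `G` contains a triangle, then the mobile general position number of the join of `G` with a
single vertex is at least three.
-/

namespace Pool.Agent.Results.MP_73e407_co.MobJoin

open SimpleGraph

variable {V : Type*}

/-- `S` is a general position set of `G`: no three distinct vertices of `S` lie on a common
shortest path of `G`. -/
def GenPos (G : SimpleGraph V) (S : Finset V) : Prop :=
  ∀ x ∈ S, ∀ y ∈ S, ∀ z ∈ S, x ≠ y → y ≠ z → x ≠ z →
    ¬ ∃ (a b : V) (p : G.Walk a b), p.length = G.dist a b ∧
      x ∈ p.support ∧ y ∈ p.support ∧ z ∈ p.support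

open Classical in
/-- A legal move takes one robot from its vertex `u` to an adjacent unoccupied vertex `v`,
provided that the new set of occupied vertices is again a general position set. -/
def LegalMove (G : SimpleGraph V) (S T : Finset V) : Prop :=
  ∃ u ∈ S, ∃ v, v ∉ S ∧ G.Adj u v ∧ T = insert v (S.erase u) ∧ GenPos G T

/-- `S` is a mobile general position set: it is a general position set and some finite sequence
of legal moves starting from `S` has every vertex occupied at some moment. -/
def Mobile (G : SimpleGraph V) (S : Finset V) : Prop :=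
  GenPos G S ∧ ∃ (m : ℕ) (s : ℕ → Finset V), s 0 = S ∧ (∀ i < m, LegalMove G (s i) (s (i + 1))) ∧
    ∀ v : V, ∃ i ≤ m, v ∈ s i

/-- The mobile general position number. -/
noncomputable def mob (G : SimpleGraph V) : ℕ := sSup {k | ∃ S : Finset V, Mobile G S ∧ S.card = k}

/-- The join of `G` with one new vertex `none`. -/
def joinVertex (G : SimpleGraph V) : SimpleGraph (Option V) where
  Adj x y := match x, y with
    | none, none => False
    | none, some _ => True
    | some _, none => True
    | some u, some v => G.Adj u v
  symm := by
    constructor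
    intro x y h
    cases x <;> cases y <;> simp_all [G.adj_comm]
  loopless := by
    constructor
    intro x h
    cases x <;> simp_all

section aux

theorem adj_none_some (G : SimpleGraph V) (v : V) : (joinVertex G).Adj none (some v) := trivial

theorem adj_some_some (G : SimpleGraph V) (u v : V) :
    (joinVertex G).Adj (some u) (some v) ↔ G.Adj u v := Iff.rfl

theorem dist_le_two (G : SimpleGraph V) (x y : Option V) : (joinVertex G).dist x y ≤ 2 := by
  cases x with
  | none =>
    cases y with
    | none => simp
    | some v =>
      have := dist_le (Walk.cons (adj_none_some G v) Walk.nil)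
      simp at this
      omega
  | some u =>
    cases y with
    | none =>
      have := dist_le (Walk.cons (adj_none_some G u).symm Walk.nil)
      simp at this
      omega
    | some v =>
      have := dist_le (Walk.cons (adj_none_some G u).symm (Walk.cons (adj_none_some G v) Walk.nil))
      simpa using this

/-- In the join, a set without an induced path on three vertices is in general position. -/
theorem genPos_of (G : SimpleGraph V) (S : Finset (Option V))
    (h : ∀ x ∈ S, ∀ y ∈ S, ∀ z ∈ S, x ≠ y → y ≠ z → x ≠ z →
      (joinVertex G).Adj x y → (joinVertex G).Adj y z → (joinVertex G).Adj x z) :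
    GenPos (joinVertex G) S := by
  rintro x hx y hy z hz hxy hyz hxz ⟨a, b, p, hp, h1, h2, h3⟩
  have hlen : p.length ≤ 2 := hp ▸ dist_le_two G a b
  cases p with
  | nil =>
    simp at h1 h2
    exact hxy (h1.trans h2.symm)
  | @cons _ m _ hadj q =>
    cases q with
    | nil =>
      simp only [Walk.support_cons, Walk.support_nil, List.mem_cons, List.not_mem_nil,
        or_false] at h1 h2 h3
      rcases h1 with h1 | h1 <;> rcases h2 with h2 | h2 <;> rcases h3 with h3 | h3 <;>
        simp_all
    | @cons _ m' _ hadj' q' =>
      cases q' with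
      | nil =>
        simp only [Walk.support_cons, Walk.support_nil, List.mem_cons, List.not_mem_nil,
          or_false] at h1 h2 h3
        have hnadj : ¬ (joinVertex G).Adj a b := by
          intro hab
          have := dist_le (Walk.cons hab Walk.nil)
          simp only [Walk.length_cons, Walk.length_nil] at this hp
          omega
        -- `a, m, b` is a permutation of `x, y, z`
        have hset : ∀ w ∈ ({a, m, b} : Set (Option V)), w ∈ S := by
          have hall : ∀ w ∈ ({a, m, b} : Set (Option V)), w = x ∨ w = y ∨ w = z := by
            intro w hw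
            simp only [Set.mem_insert_iff, Set.mem_singleton_iff] at hw
            rcases h1 with h1 | h1 | h1 <;> rcases h2 with h2 | h2 | h2 <;>
              rcases h3 with h3 | h3 | h3 <;> rcases hw with hw | hw | hw <;> simp_all
          intro w hw
          rcases hall w hw with e | e | e <;> rw [e] <;> assumption
        have ha := hset a (by simp)
        have hm := hset m (by simp)
        have hb := hset b (by simp)
        have hab : a ≠ b := by
          rintro rfl
          simp only [Walk.length_cons, Walk.length_nil, dist_self] at hp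
          omega
        exact hnadj (h a ha m hm b hb hadj.ne hadj'.ne hab hadj hadj')
      | cons h'' q'' =>
        simp only [Walk.length_cons] at hlen
        omega

open Classical in
/-- The graph of states. -/
def stateGraph (G : SimpleGraph V) : SimpleGraph (Finset V) where
  Adj S T := GenPos G S ∧ LegalMove G S T
  symm := by
    constructor
    rintro S T ⟨hS, u, hu, v, hv, huv, rfl, hT⟩
    refine ⟨hT, v, Finset.mem_insert_self _ _, u, ?_, huv.symm, ?_, hS⟩
    · rw [Finset.mem_insert, not_or]
      exact ⟨fun e => hv (e ▸ hu), Finset.notMem_erase _ _⟩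
    · rw [Finset.erase_insert, Finset.insert_erase hu]
      intro h
      exact hv (Finset.mem_of_mem_erase h)
  loopless := by
    constructor
    rintro S ⟨hS, u, hu, v, hv, huv, hE, hT⟩
    apply hv
    rw [hE]
    exact Finset.mem_insert_self _ _

theorem mobile_of_walk (G : SimpleGraph V) {S T : Finset V} (hS : GenPos G S)
    (p : (stateGraph G).Walk S T) (hp : ∀ v : V, ∃ U ∈ p.support, v ∈ U) : Mobile G S := by
  refine ⟨hS, p.length, p.getVert, p.getVert_zero, ?_, ?_⟩
  · intro i hi
    exact (p.adj_getVert_succ hi).2
  · intro v
    obtain ⟨U, hU, hv⟩ := hp v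
    obtain ⟨i, hi1, hi2⟩ := (Walk.mem_support_iff_exists_getVert).1 hU
    exact ⟨i, hi2, hi1 ▸ hv⟩

theorem tour (G : SimpleGraph V) [Fintype V] {S : Finset V}
    (h : ∀ v : V, ∃ U, (stateGraph G).Reachable S U ∧ v ∈ U) :
    ∃ p : (stateGraph G).Walk S S, ∀ v : V, ∃ U ∈ p.support, v ∈ U := by
  classical
  have key : ∀ F : Finset V, ∃ p : (stateGraph G).Walk S S, ∀ v ∈ F, ∃ U ∈ p.support, v ∈ U := by
    intro F
    induction F using Finset.induction_on with
    | empty => exact ⟨Walk.nil, by simp⟩
    | insert a F ha ih =>
      obtain ⟨p, hp⟩ := ih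
      obtain ⟨U, ⟨q⟩, hU⟩ := h a
      refine ⟨(q.append q.reverse).append p, ?_⟩
      intro v hv
      rcases Finset.mem_insert.1 hv with rfl | hv
      · refine ⟨U, ?_, hU⟩
        rw [Walk.mem_support_append_iff, Walk.mem_support_append_iff]
        exact Or.inl (Or.inl q.end_mem_support)
      · obtain ⟨W, hW1, hW2⟩ := hp v hv
        refine ⟨W, ?_, hW2⟩
        rw [Walk.mem_support_append_iff]
        exact Or.inr hW1
  obtain ⟨p, hp⟩ := key Finset.univ
  exact ⟨p, fun v => hp v (Finset.mem_univ v)⟩

end aux

open Classical in
/-- three-element sets with the apex -/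
theorem genPos_apex (G : SimpleGraph V) {u v : V} (h : G.Adj u v) :
    GenPos (joinVertex G) {none, some u, some v} := by
  apply genPos_of
  intro x hx y hy z hz hxy hyz hxz h1 h2
  simp only [Finset.mem_insert, Finset.mem_singleton] at hx hy hz
  have h3 := adj_none_some G u
  have h4 := adj_none_some G v
  have h5 : (joinVertex G).Adj (some u) (some v) := h
  have h6 := h3.symm
  have h7 := h4.symm
  have h8 := h5.symm
  rcases hx with rfl | rfl | rfl <;> rcases hy with rfl | rfl | rfl <;>
    rcases hz with rfl | rfl | rfl <;>
    first
      | exact absurd rfl hxz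
      | exact absurd rfl hxy
      | exact absurd rfl hyz
      | assumption

open Classical in
theorem genPos_base (G : SimpleGraph V) {u v w : V} (h : G.Adj u v) (hw1 : ¬ G.Adj w u)
    (hw2 : ¬ G.Adj w v) :
    GenPos (joinVertex G) {some w, some u, some v} := by
  apply genPos_of
  intro x hx y hy z hz hxy hyz hxz h1 h2
  simp only [Finset.mem_insert, Finset.mem_singleton] at hx hy hz
  have hw3 : ¬ (joinVertex G).Adj (some w) (some u) := hw1
  have hw4 : ¬ (joinVertex G).Adj (some w) (some v) := hw2
  have hw5 : ¬ (joinVertex G).Adj (some u) (some w) := fun e => hw1 e.symm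
  have hw6 : ¬ (joinVertex G).Adj (some v) (some w) := fun e => hw2 e.symm
  rcases hx with rfl | rfl | rfl <;> rcases hy with rfl | rfl | rfl <;>
    rcases hz with rfl | rfl | rfl <;>
    first
      | exact absurd rfl hxz
      | exact absurd rfl hxy
      | exact absurd rfl hyz
      | exact absurd h1 hw3
      | exact absurd h1 hw4
      | exact absurd h1 hw5
      | exact absurd h1 hw6
      | exact absurd h2 hw3
      | exact absurd h2 hw4
      | exact absurd h2 hw5
      | exact absurd h2 hw6

open Classical in
/-- swapping one vertex of an edge -/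
theorem step_swap (G : SimpleGraph V) {u v w : V} (h : G.Adj u v) (hwu : G.Adj w u)
    (hwv : G.Adj w v) :
    (stateGraph (joinVertex G)).Adj {none, some u, some v} {none, some w, some v} := by
  refine ⟨genPos_apex G h, some u, by simp, some w, ?_, hwu.symm, ?_, genPos_apex G hwv⟩
  · simp only [Finset.mem_insert, Finset.mem_singleton, not_or]
    refine ⟨by simp, ?_, ?_⟩
    · intro e; exact hwu.ne (Option.some_injective _ e)
    · intro e; exact hwv.ne (Option.some_injective _ e)
  · ext x
    simp only [Finset.mem_insert, Finset.mem_singleton, Finset.mem_erase]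
    have h1 : (none : Option V) ≠ some u := by simp
    have h2 : (some v : Option V) ≠ some u := fun e => h.ne (Option.some_injective _ e).symm
    constructor
    · rintro (rfl | rfl | rfl)
      · exact Or.inr ⟨h1, Or.inl rfl⟩
      · exact Or.inl rfl
      · exact Or.inr ⟨h2, Or.inr (Or.inr rfl)⟩
    · rintro (rfl | ⟨h3, h4 | h4 | h4⟩)
      · exact Or.inr (Or.inl rfl)
      · exact Or.inl h4
      · exact absurd h4 h3
      · exact Or.inr (Or.inr h4)

open Classical in
/-- moving the robot at the apex -/
theorem step_apex (G : SimpleGraph V) {u v w : V} (h : G.Adj u v) (hwu : ¬ G.Adj w u)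
    (hwv : ¬ G.Adj w v) (hwu' : w ≠ u) (hwv' : w ≠ v) :
    (stateGraph (joinVertex G)).Adj {none, some u, some v} {some w, some u, some v} := by
  refine ⟨genPos_apex G h, none, by simp, some w, ?_, adj_none_some G w, ?_,
    genPos_base G h hwu hwv⟩
  · simp only [Finset.mem_insert, Finset.mem_singleton, not_or]
    refine ⟨by simp, ?_, ?_⟩
    · intro e; exact hwu' (Option.some_injective _ e)
    · intro e; exact hwv' (Option.some_injective _ e)
  · ext x
    simp only [Finset.mem_insert, Finset.mem_singleton, Finset.mem_erase]
    constructor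
    · rintro (rfl | rfl | rfl)
      · exact Or.inl rfl
      · exact Or.inr ⟨by simp, Or.inr (Or.inl rfl)⟩
      · exact Or.inr ⟨by simp, Or.inr (Or.inr rfl)⟩
    · rintro (rfl | ⟨h3, h4 | h4 | h4⟩)
      · exact Or.inl rfl
      · exact absurd h4 h3
      · exact Or.inr (Or.inl h4)
      · exact Or.inr (Or.inr h4)

open Classical in
theorem pair_comm' (u v : V) : ({none, some u, some v} : Finset (Option V)) =
    {none, some v, some u} := by
  ext x; simp only [Finset.mem_insert, Finset.mem_singleton]; tauto

open Classical in
/-- from an edge `uv` of a triangle, any vertex that is adjacent to both or to none of `u, v`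
can be visited -/
theorem visit (G : SimpleGraph V) {u v w : V} (h : G.Adj u v)
    (hw : (G.Adj w u ∧ G.Adj w v) ∨ (¬ G.Adj w u ∧ ¬ G.Adj w v)) :
    ∃ U, (stateGraph (joinVertex G)).Reachable {none, some u, some v} U ∧ some w ∈ U := by
  rcases hw with ⟨h1, h2⟩ | ⟨h1, h2⟩
  · exact ⟨_, (step_swap G h h1 h2).reachable, by simp⟩
  · by_cases h3 : w = u
    · exact ⟨_, Reachable.refl _, by simp [h3]⟩
    · by_cases h4 : w = v
      · exact ⟨_, Reachable.refl _, by simp [h4]⟩
      · exact ⟨_, (step_apex G h h1 h2 h3 h4).reachable, by simp⟩

open Classical in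
theorem mobile_apex (G : SimpleGraph V) [Fintype V] {a b c : V} (hab : G.Adj a b)
    (hac : G.Adj a c) (hbc : G.Adj b c) :
    Mobile (joinVertex G) {none, some a, some b} := by
  have hreach : ∀ v : Option V, ∃ U,
      (stateGraph (joinVertex G)).Reachable {none, some a, some b} U ∧ v ∈ U := by
    intro v
    cases v with
    | none => exact ⟨_, Reachable.refl _, by simp⟩
    | some w =>
      -- the three pairs are mutually reachable
      have r1 : (stateGraph (joinVertex G)).Reachable {none, some a, some b}
          {none, some c, some b} := (step_swap G hab hac.symm hbc.symm).reachable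
      have r2 : (stateGraph (joinVertex G)).Reachable {none, some a, some b}
          {none, some c, some a} := by
        rw [pair_comm' a b]
        exact (step_swap G hab.symm hbc.symm hac.symm).reachable
      by_cases h1 : G.Adj w a <;> by_cases h2 : G.Adj w b <;> by_cases h3 : G.Adj w c
      · exact visit G hab (Or.inl ⟨h1, h2⟩)
      · exact visit G hab (Or.inl ⟨h1, h2⟩)
      · obtain ⟨U, hU1, hU2⟩ := visit G hac.symm (w := w) (Or.inl ⟨h3, h1⟩)
        exact ⟨U, r2.trans hU1, hU2⟩
      · obtain ⟨U, hU1, hU2⟩ := visit G hbc.symm (w := w) (Or.inr ⟨h3, h2⟩)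
        exact ⟨U, r1.trans hU1, hU2⟩
      · obtain ⟨U, hU1, hU2⟩ := visit G hbc.symm (w := w) (Or.inl ⟨h3, h2⟩)
        exact ⟨U, r1.trans hU1, hU2⟩
      · obtain ⟨U, hU1, hU2⟩ := visit G hac.symm (w := w) (Or.inr ⟨h3, h1⟩)
        exact ⟨U, r2.trans hU1, hU2⟩
      · exact visit G hab (Or.inr ⟨h1, h2⟩)
      · exact visit G hab (Or.inr ⟨h1, h2⟩)
  obtain ⟨p, hp⟩ := tour (joinVertex G) hreach
  exact mobile_of_walk _ (genPos_apex G hab) p hp

/-- **Main theorem.** If the clique number of the finite graph `G` is at least `3`, then the
mobile general position number of the join of `G` with a single vertex is at least `3`. -/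
theorem result {V : Type*} [Fintype V] (G : SimpleGraph V) (hG : 3 ≤ G.cliqueNum) :
    3 ≤ mob (joinVertex G) := by
  classical
  obtain ⟨K, hK⟩ := G.exists_isNClique_cliqueNum
  obtain ⟨K', hK'1, hK'2⟩ := Finset.exists_subset_card_eq (hK.card_eq.symm ▸ hG : 3 ≤ K.card)
  have hcl : G.IsNClique 3 K' := ⟨hK.isClique.subset (by exact_mod_cast hK'1), hK'2⟩
  obtain ⟨a, b, c, hab, hac, hbc, rfl⟩ := is3Clique_iff.1 hcl
  have hm := mobile_apex G hab hac hbc
  refine le_csSup ?_ ⟨_, hm, ?_⟩
  · refine ⟨Fintype.card (Option V), ?_⟩
    rintro k ⟨S, -, rfl⟩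
    exact Finset.card_le_univ S
  · rw [Finset.card_insert_of_notMem, Finset.card_pair]
    · intro e; exact hab.ne (Option.some_injective _ e)
    · simp

end Pool.Agent.Results.MP_73e407_co.MobJoin
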